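import Pool.Agent.TH173.KR.Main

/-!
# Kalai's rank bound up to the number of active triples

Let the vertices `[n]` be ordered by a permutation `σ` (`a` is before `b` if `σ a < σ b`) and let
`E` be a family of triples. A pair `a` before `c` is *closed* if `{a, c, d} ∈ E` for every vertex
`d` after `c`. A triple `a, b, c` (in this order) outside `E` is *active* if neither `{a, c}` nor
`{b, c}` is closed. We prove, for all `1 ≤ s ≤ n / 3`, all orderings, all 3-graphs `G` and all `E`,

`B_s(n) ≤ r_s(G) + |E \ G| + #(active triples of E)`.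

A family without active triples meets every 4-set, and Kalai's inequality `r_s(G) ≥ B_s(n)` holds
for every `G` which contains such a family for some ordering of the vertices.
-/

set_option autoImplicit false
open Finset

namespace Pool.Agent.Results.MP_8317a8_co.ActiveTriples

/-- Kalai's matrix `M_s(G)`. -/
noncomputable def kalaiMatrix (n s : ℕ) (G : Finset (Finset (Fin n))) :
    Matrix {e : Finset (Fin n) // e ∈ G} (Fin s × {p : Fin n × Fin n // p.1 < p.2})
      (FractionRing (MvPolynomial (Fin s × Fin n) ℚ)) :=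
  Matrix.of (fun (e : {e : Finset (Fin n) // e ∈ G})
      (c : Fin s × {p : Fin n × Fin n // p.1 < p.2}) =>
    if c.2.1.1 ∈ e.1 ∧ c.2.1.2 ∈ e.1 then
      ∑ w ∈ e.1 \ {c.2.1.1, c.2.1.2},
        (if c.2.1.1 < w ∧ w < c.2.1.2 then
          algebraMap (MvPolynomial (Fin s × Fin n) ℚ)
            (FractionRing (MvPolynomial (Fin s × Fin n) ℚ))
            (MvPolynomial.X (c.1, w))
        else
          -algebraMap (MvPolynomial (Fin s × Fin n) ℚ)
            (FractionRing (MvPolynomial (Fin s × Fin n) ℚ))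
            (MvPolynomial.X (c.1, w)))
    else (0 : FractionRing (MvPolynomial (Fin s × Fin n) ℚ)))

/-- Kalai's number `B_s(n)`. -/
def kalaiNumber (n s : ℕ) : ℤ :=
  ∑ i ∈ Icc 1 s, (((n - 2 * i).choose 2 : ℤ) - (i.choose 2 : ℤ))

/-- Every 4-set of vertices contains a triple of `E`. -/
def Covers {n : ℕ} (E : Finset (Finset (Fin n))) : Prop :=
  ∀ S : Finset (Fin n), S.card = 4 → ∃ e ∈ E, e ⊆ S

/-- The pair `{a, c}` is closed: every vertex `d` after `c` forms a triple of `E` with `a, c`. -/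
def Closed {n : ℕ} (σ : Equiv.Perm (Fin n)) (E : Finset (Finset (Fin n))) (a c : Fin n) : Prop :=
  ∀ d : Fin n, σ c < σ d → ({a, c, d} : Finset (Fin n)) ∈ E

/-- `t = {a, b, c}`, with `a, b, c` in this order, is not in `E` and neither `{a, c}` nor `{b, c}`
is closed. -/
def Active {n : ℕ} (σ : Equiv.Perm (Fin n)) (E : Finset (Finset (Fin n))) (t : Finset (Fin n)) :
    Prop :=
  ∃ a b c : Fin n, σ a < σ b ∧ σ b < σ c ∧ t = {a, b, c} ∧ t ∉ E ∧
    ¬ Closed σ E a c ∧ ¬ Closed σ E b c

open scoped Classical in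
/-- The set of the active triples. -/
noncomputable def activeTriples {n : ℕ} (σ : Equiv.Perm (Fin n)) (E : Finset (Finset (Fin n))) :
    Finset (Finset (Fin n)) :=
  univ.filter (Active σ E)

open scoped Classical in
/-- The family of a graph `Γ` (given by the pairs `a` before `b` with `Γ a b`): all triples
`a, b, c` (in this order) such that `ab` is not an edge of `Γ`, or `ac` and `bc` are edges. -/
noncomputable def graphFamily {n : ℕ} (σ : Equiv.Perm (Fin n)) (Γ : Fin n → Fin n → Prop) :
    Finset (Finset (Fin n)) :=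
  univ.filter fun t => ∃ a b c : Fin n, σ a < σ b ∧ σ b < σ c ∧ t = {a, b, c} ∧
    (¬ Γ a b ∨ (Γ a c ∧ Γ b c))

theorem active_mono {n : ℕ} (σ : Equiv.Perm (Fin n)) {E F : Finset (Finset (Fin n))}
    (h : E ⊆ F) : activeTriples σ F ⊆ activeTriples σ E := by
  classical
  intro t ht
  unfold activeTriples at ht ⊢
  rw [mem_filter] at ht ⊢
  obtain ⟨-, a, b, c, hab, hbc, rfl, h1, h2, h3⟩ := ht
  exact ⟨mem_univ _, a, b, c, hab, hbc, rfl, fun h0 => h1 (h h0),
    fun h0 => h2 fun d hd => h (h0 d hd), fun h0 => h3 fun d hd => h (h0 d hd)⟩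

theorem mem_graphFamily {n : ℕ} (σ : Equiv.Perm (Fin n)) (Γ : Fin n → Fin n → Prop)
    {a b c : Fin n} (hab : σ a < σ b) (hbc : σ b < σ c) :
    ({a, b, c} : Finset (Fin n)) ∈ graphFamily σ Γ ↔ (¬ Γ a b ∨ (Γ a c ∧ Γ b c)) := by
  classical
  unfold graphFamily
  rw [mem_filter]
  constructor
  · rintro ⟨-, a', b', c', h1, h2, h, h3⟩
    obtain ⟨rfl, rfl, rfl⟩ := Pool.Agent.TH173.KR.perm_inj σ hab hbc h1 h2 h
    exact h3
  · intro h
    exact ⟨mem_univ _, a, b, c, hab, hbc, rfl, h⟩

theorem active_graphFamily {n : ℕ} (σ : Equiv.Perm (Fin n)) (Γ : Fin n → Fin n → Prop) :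
    activeTriples σ (graphFamily σ Γ) = ∅ := by
  classical
  rw [eq_empty_iff_forall_notMem]
  intro t ht
  unfold activeTriples at ht
  obtain ⟨-, a, b, c, hab, hbc, rfl, h1, h2, h3⟩ := mem_filter.1 ht
  rw [mem_graphFamily σ Γ hab hbc] at h1
  push Not at h1
  obtain ⟨h1, h1'⟩ := h1
  by_cases h4 : Γ a c
  · apply h3
    intro d hd
    rw [mem_graphFamily σ Γ hbc hd]
    exact Or.inl (h1' h4)
  · apply h2
    intro d hd
    rw [mem_graphFamily σ Γ (hab.trans hbc) hd]
    exact Or.inl h4

/-- A set of four vertices can be listed in the given order. -/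
theorem exists_sorted {n : ℕ} (σ : Equiv.Perm (Fin n)) (S : Finset (Fin n)) (hS : S.card = 4) :
    ∃ a b c d : Fin n, σ a < σ b ∧ σ b < σ c ∧ σ c < σ d ∧ {a, b, c, d} ⊆ S := by
  classical
  set T := S.image σ with hT
  have hTc : T.card = 4 := by rw [hT, card_image_of_injective _ σ.injective, hS]
  let f := T.orderEmbOfFin hTc
  have hm : ∀ i, ∃ x ∈ S, σ x = f i := by
    intro i
    exact mem_image.1 (show T.orderEmbOfFin hTc i ∈ S.image σ from T.orderEmbOfFin_mem hTc i)
  choose x hx hσ using hm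
  refine ⟨x 0, x 1, x 2, x 3, ?_, ?_, ?_, ?_⟩
  · rw [hσ, hσ]; exact f.strictMono (by decide)
  · rw [hσ, hσ]; exact f.strictMono (by decide)
  · rw [hσ, hσ]; exact f.strictMono (by decide)
  · intro y hy
    simp only [mem_insert, mem_singleton] at hy
    rcases hy with rfl | rfl | rfl | rfl <;> exact hx _

theorem covers {n : ℕ} (σ : Equiv.Perm (Fin n)) (E : Finset (Finset (Fin n)))
    (h : activeTriples σ E = ∅) : Covers E := by
  classical
  intro S hS
  obtain ⟨a, b, c, d, hab, hbc, hcd, hsub⟩ := exists_sorted σ S hS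
  have hno : ¬ Active σ E {a, b, c} := by
    intro h0
    have : ({a, b, c} : Finset (Fin n)) ∈ activeTriples σ E := by
      unfold activeTriples
      rw [mem_filter]
      exact ⟨mem_univ _, h0⟩
    rw [h] at this
    simp at this
  by_cases h1 : ({a, b, c} : Finset (Fin n)) ∈ E
  · refine ⟨_, h1, fun y hy => hsub ?_⟩
    simp only [mem_insert, mem_singleton] at hy ⊢
    tauto
  by_cases h2 : Closed σ E a c
  · refine ⟨_, h2 d hcd, fun y hy => hsub ?_⟩
    simp only [mem_insert, mem_singleton] at hy ⊢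
    tauto
  by_cases h3 : Closed σ E b c
  · refine ⟨_, h3 d hcd, fun y hy => hsub ?_⟩
    simp only [mem_insert, mem_singleton] at hy ⊢
    tauto
  exact (hno ⟨a, b, c, hab, hbc, rfl, h1, h2, h3⟩).elim

/-- Adding rows. -/
theorem rank_union_gen {K α C : Type} [Field K] [DecidableEq α] [Fintype C] (R : α → C → K)
    (G E : Finset α) :
    (Matrix.of fun (e : {e : α // e ∈ G ∪ E}) => R e.1).rank ≤
      (Matrix.of fun (e : {e : α // e ∈ G}) => R e.1).rank + (E \ G).card := by
  classical
  rw [Matrix.rank_eq_finrank_span_row, Matrix.rank_eq_finrank_span_row]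
  have hsub : Submodule.span K (Set.range (Matrix.of fun (e : {e : α // e ∈ G ∪ E}) => R e.1).row) ≤
      Submodule.span K (Set.range (Matrix.of fun (e : {e : α // e ∈ G}) => R e.1).row) ⊔
        Submodule.span K (((E \ G).image R : Finset (C → K)) : Set (C → K)) := by
    rw [Submodule.span_le]
    rintro _ ⟨e, rfl⟩
    by_cases he : e.1 ∈ G
    · apply Submodule.mem_sup_left
      apply Submodule.subset_span
      exact ⟨⟨e.1, he⟩, rfl⟩
    · apply Submodule.mem_sup_right
      apply Submodule.subset_span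
      rw [coe_image]
      refine ⟨e.1, ?_, rfl⟩
      rw [mem_coe, mem_sdiff]
      exact ⟨(mem_union.1 e.2).resolve_left he, he⟩
  refine (Submodule.finrank_mono hsub).trans ((Submodule.finrank_add_le_finrank_add_finrank _ _).trans
    (Nat.add_le_add_left ?_ _))
  exact (finrank_span_finset_le_card _).trans card_image_le

theorem rank_union (n s : ℕ) (G E : Finset (Finset (Fin n))) :
    (kalaiMatrix n s (G ∪ E)).rank ≤ (kalaiMatrix n s G).rank + (E \ G).card :=
  rank_union_gen (fun (e : Finset (Fin n)) (c : Fin s × {p : Fin n × Fin n // p.1 < p.2}) =>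
    if c.2.1.1 ∈ e ∧ c.2.1.2 ∈ e then
      ∑ w ∈ e \ {c.2.1.1, c.2.1.2},
        (if c.2.1.1 < w ∧ w < c.2.1.2 then
          algebraMap (MvPolynomial (Fin s × Fin n) ℚ)
            (FractionRing (MvPolynomial (Fin s × Fin n) ℚ))
            (MvPolynomial.X (c.1, w))
        else
          -algebraMap (MvPolynomial (Fin s × Fin n) ℚ)
            (FractionRing (MvPolynomial (Fin s × Fin n) ℚ))
            (MvPolynomial.X (c.1, w)))
    else (0 : FractionRing (MvPolynomial (Fin s × Fin n) ℚ))) G E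

/-- the columns of the matrix -/
def col {n s : ℕ} (hn : 1 < n) (i : Fin s) (q : Fin n × Fin n) :
    Fin s × {p : Fin n × Fin n // p.1 < p.2} :=
  if h : q.1 < q.2 then (i, ⟨q, h⟩) else
    (i, ⟨(⟨0, by omega⟩, ⟨1, by omega⟩), Fin.mk_lt_mk.2 (by omega)⟩)

theorem kalai_ent {n s : ℕ} (hn : 1 < n) (G : Finset (Finset (Fin n)))
    (e : {e : Finset (Fin n) // e ∈ G}) (i : Fin s) (q : Fin n × Fin n) (hq : q.1 < q.2) :
    kalaiMatrix n s G e (col hn i q) = Pool.Agent.TH173.KR.ent e.1 i q := by
  unfold col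
  rw [dif_pos hq]
  rfl

theorem bound {n s : ℕ} (hs1 : 1 ≤ s) (hsn : s ≤ n / 3) (σ : Equiv.Perm (Fin n))
    (G : Finset (Finset (Fin n))) :
    kalaiNumber n s ≤ ((kalaiMatrix n s G).rank : ℤ) + ((activeTriples σ G).card : ℤ) := by
  have hn : 1 < n := by omega
  exact Pool.Agent.TH173.KR.kalai hs1 hsn G σ (kalaiMatrix n s G) (col hn)
    (fun e i q hq => kalai_ent hn G e i q hq)

/-- **Kalai's rank bound up to active triples.** For all `1 ≤ s ≤ n / 3`, all orderings `σ` of the
vertices and all families `E` and `G` of triples, `B_s(n) ≤ r_s(G) + |E \ G| + #active(E)`. Hence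
Kalai's inequality holds for every `G` containing a family without active triples; such a family
meets every 4-set, and the family of every ordered graph is an example. -/
theorem result :
    (∀ n s : ℕ, 1 ≤ s → s ≤ n / 3 → ∀ (σ : Equiv.Perm (Fin n)) (E G : Finset (Finset (Fin n))),
      kalaiNumber n s ≤ ((kalaiMatrix n s G).rank : ℤ) + ((E \ G).card : ℤ) +
        ((activeTriples σ E).card : ℤ)) ∧
    (∀ (n : ℕ) (σ : Equiv.Perm (Fin n)) (E : Finset (Finset (Fin n))), activeTriples σ E = ∅ →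
      Covers E ∧ ∀ s : ℕ, 1 ≤ s → s ≤ n / 3 → ∀ G : Finset (Finset (Fin n)), E ⊆ G →
        kalaiNumber n s ≤ ((kalaiMatrix n s G).rank : ℤ)) ∧
    (∀ (n : ℕ) (σ : Equiv.Perm (Fin n)) (Γ : Fin n → Fin n → Prop),
      activeTriples σ (graphFamily σ Γ) = ∅) := by
  classical
  have key : ∀ n s : ℕ, 1 ≤ s → s ≤ n / 3 → ∀ (σ : Equiv.Perm (Fin n))
      (E G : Finset (Finset (Fin n))),
      kalaiNumber n s ≤ ((kalaiMatrix n s G).rank : ℤ) + ((E \ G).card : ℤ) +
        ((activeTriples σ E).card : ℤ) := by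
    intro n s h1 h2 σ E G
    have h3 := bound h1 h2 σ (G ∪ E)
    have h4 := card_le_card (active_mono σ (subset_union_right : E ⊆ G ∪ E))
    have h5 := rank_union n s G E
    zify at h4 h5
    linarith
  refine ⟨key, fun n σ E hE => ⟨covers σ E hE, fun s h1 h2 G hG => ?_⟩,
    fun n σ Γ => active_graphFamily σ Γ⟩
  have h3 := key n s h1 h2 σ E G
  rw [hE, sdiff_eq_empty_iff_subset.2 hG] at h3
  simpa using h3

end Pool.Agent.Results.MP_8317a8_co.ActiveTriples
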